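import Pool.Agent.Lib_helper51.TM32.NDefs
import Pool.Agent.Lib_helper67.TM32.N2a
import Pool.Agent.Lib_helper23.TM32.N2b
import Pool.Agent.Lib_helper45.TM32.N3

/-!
TM32, phase 2, block N5 (helper87): `G` has no zero on the line `Re s = 1`.
The Euler product of `rr` has primes `p = 1 mod 8` only (weight at most 2, density 1/4): the trivial bound
`|G'/G (σ + i t)| ≤ 2 ∑_{n = 1 mod 8} Λ(n) n^(-σ) + O(1) = (1/2)/(σ - 1) + O(1)` excludes a zero.
-/

set_option autoImplicit false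

namespace Pool.Agent.TM32

open Zsqrtd Filter Topology ArithmeticFunction

/-- the logarithmic derivative near a zero of order `m` -/
theorem N5_order {G : ℂ → ℂ} {z₀ : ℂ} (hG : AnalyticAt ℂ G z₀) (h0 : G z₀ = 0)
    (hne : ¬ ∀ᶠ z in 𝓝 z₀, G z = 0) :
    ∃ m : ℕ, 1 ≤ m ∧ Tendsto (fun z => (z - z₀) * (deriv G z / G z)) (𝓝[≠] z₀) (𝓝 (m : ℂ)) := by
  have h1 : analyticOrderAt G z₀ ≠ ⊤ := fun h => hne (analyticOrderAt_eq_top.mp h)
  obtain ⟨m, hm⟩ := ENat.ne_top_iff_exists.mp h1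
  have h2 := (hG.analyticOrderAt_eq_natCast (n := m)).mp hm.symm
  obtain ⟨g, hg, hg0, hGg⟩ := h2
  have hm1 : 1 ≤ m := by
    rcases Nat.eq_zero_or_pos m with h | h
    · exfalso
      have h3 := hGg.self_of_nhds
      rw [h, h0] at h3
      simp at h3
      exact hg0 h3.symm
    · exact h
  refine ⟨m, hm1, ?_⟩
  obtain ⟨k, rfl⟩ : ∃ k, m = k + 1 := ⟨m - 1, by omega⟩
  have h4 : Tendsto (fun z => ((k + 1 : ℕ) : ℂ) + (z - z₀) * (deriv g z / g z)) (𝓝[≠] z₀)
      (𝓝 (((k + 1 : ℕ) : ℂ) + (z₀ - z₀) * (deriv g z₀ / g z₀))) := by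
    apply Tendsto.mono_left _ nhdsWithin_le_nhds
    have hgc : ContinuousAt g z₀ := hg.continuousAt
    have hdc : ContinuousAt (deriv g) z₀ := hg.deriv.continuousAt
    exact tendsto_const_nhds.add ((continuousAt_id.sub continuousAt_const).mul (hdc.div hgc hg0))
  rw [sub_self, zero_mul, add_zero] at h4
  refine h4.congr' ?_
  have hgne : ∀ᶠ z in 𝓝[≠] z₀, g z ≠ 0 :=
    (hg.continuousAt.eventually_ne hg0).filter_mono nhdsWithin_le_nhds
  have hgd : ∀ᶠ z in 𝓝[≠] z₀, AnalyticAt ℂ g z :=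
    hg.eventually_analyticAt.filter_mono nhdsWithin_le_nhds
  have hGev : ∀ᶠ z in 𝓝[≠] z₀, ∀ᶠ w in 𝓝 z, G w = (w - z₀) ^ (k + 1) • g w :=
    hGg.eventually_nhds.filter_mono nhdsWithin_le_nhds
  filter_upwards [hgne, hgd, hGev, self_mem_nhdsWithin] with z hz1 hz2 hz3 hz4
  have hz5 : z - z₀ ≠ 0 := sub_ne_zero.mpr hz4
  have h5 : deriv G z = ((k + 1 : ℕ) : ℂ) * (z - z₀) ^ k * g z + (z - z₀) ^ (k + 1) * deriv g z := by
    have h6 : G =ᶠ[𝓝 z] fun w => (w - z₀) ^ (k + 1) * g w := by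
      filter_upwards [hz3] with w hw
      rw [hw, smul_eq_mul]
    rw [h6.deriv_eq]
    have h7 : HasDerivAt (fun w => (w - z₀) ^ (k + 1)) (((k + 1 : ℕ) : ℂ) * (z - z₀) ^ k) z := by
      have h8 : HasDerivAt (fun w : ℂ => w - z₀) 1 z := (hasDerivAt_id z).sub_const z₀
      have h9 := h8.fun_pow (k + 1)
      rw [mul_one, Nat.add_sub_cancel] at h9
      exact h9
    exact (h7.mul hz2.differentiableAt.hasDerivAt).deriv
  have h6 : G z = (z - z₀) ^ (k + 1) * g z := by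
    have := hz3.self_of_nhds
    rw [this, smul_eq_mul]
  rw [h5, h6]
  have hz6 : (z - z₀) ^ (k + 1) ≠ 0 := pow_ne_zero _ hz5
  rw [eq_comm, ← mul_div_assoc, div_eq_iff (mul_ne_zero hz6 hz1)]
  have h7 : (z - z₀) * (deriv g z / g z) * ((z - z₀) ^ (k + 1) * g z) =
      (z - z₀) * (z - z₀) ^ (k + 1) * deriv g z := by
    field_simp
  rw [add_mul, h7]
  ring

/-- the series of the residue class `1 mod 8` -/
theorem N5_res : Tendsto (fun σ : ℝ => (σ - 1) *
    ∑' n, ‖LSeries.term (fun n => ((vonMangoldt.residueClass (1 : ZMod 8) n : ℝ) : ℂ)) (σ : ℂ) n‖)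
    (𝓝[>] (1 : ℝ)) (𝓝 (1 / 4)) := by
  have hu : IsUnit (1 : ZMod 8) := isUnit_one
  have h1 := vonMangoldt.continuousOn_LFunctionResidueClassAux (1 : ZMod 8)
  have h2 := vonMangoldt.eqOn_LFunctionResidueClassAux hu
  have hpath : Tendsto (fun σ : ℝ => (σ : ℂ)) (𝓝[>] (1 : ℝ)) (𝓝[{s : ℂ | 1 ≤ s.re}] 1) := by
    apply tendsto_nhdsWithin_iff.mpr
    constructor
    · have : Tendsto (fun σ : ℝ => (σ : ℂ)) (𝓝 1) (𝓝 ((1 : ℝ) : ℂ)) := Complex.continuous_ofReal.tendsto 1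
      rw [Complex.ofReal_one] at this
      exact this.mono_left nhdsWithin_le_nhds
    · filter_upwards [self_mem_nhdsWithin] with σ hσ
      have : (1 : ℝ) < σ := hσ
      simp only [Set.mem_ofPred_eq, Complex.ofReal_re]
      exact this.le
  have h3 : Tendsto (fun σ : ℝ => vonMangoldt.LFunctionResidueClassAux (1 : ZMod 8) (σ : ℂ))
      (𝓝[>] (1 : ℝ)) (𝓝 (vonMangoldt.LFunctionResidueClassAux (1 : ZMod 8) 1)) :=
    (h1 1 (by simp)).tendsto.comp hpath
  have h4 : Tendsto (fun σ : ℝ => (((σ - 1 : ℝ)) : ℂ) *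
      vonMangoldt.LFunctionResidueClassAux (1 : ZMod 8) (σ : ℂ) + (1 / 4 : ℂ))
      (𝓝[>] (1 : ℝ)) (𝓝 (0 * vonMangoldt.LFunctionResidueClassAux (1 : ZMod 8) 1 + (1 / 4 : ℂ))) := by
    refine (Tendsto.mul ?_ h3).add tendsto_const_nhds
    have h5 : Tendsto (fun σ : ℝ => ((σ - 1 : ℝ) : ℂ)) (𝓝 1) (𝓝 (((1 : ℝ) - 1 : ℝ) : ℂ)) :=
      (Complex.continuous_ofReal.comp (continuous_id.sub continuous_const)).tendsto 1
    rw [sub_self, Complex.ofReal_zero] at h5
    exact h5.mono_left nhdsWithin_le_nhds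
  rw [zero_mul, zero_add] at h4
  have h5 := h4.norm
  have h6 : ‖(1 / 4 : ℂ)‖ = 1 / 4 := by norm_num
  rw [h6] at h5
  refine h5.congr' ?_
  filter_upwards [self_mem_nhdsWithin] with σ hσ
  have hσ1 : (1 : ℝ) < σ := hσ
  have hσ' : (σ : ℂ) ∈ {s : ℂ | 1 < s.re} := by
    simp only [Set.mem_ofPred_eq, Complex.ofReal_re]; exact hσ1
  have h7 := h2 hσ'
  simp only at h7
  rw [h7]
  have ht : ((Nat.totient 8 : ℕ) : ℂ) = 4 := by
    have : Nat.totient 8 = 4 := by decide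
    rw [this]; norm_num
  rw [ht]
  have hne : ((σ - 1 : ℝ) : ℂ) ≠ 0 := by
    rw [Complex.ofReal_ne_zero]; linarith
  have h8 : (((σ - 1 : ℝ)) : ℂ) * (LSeries (fun n => ((vonMangoldt.residueClass (1 : ZMod 8) n : ℝ) : ℂ)) (σ : ℂ)
      - (4 : ℂ)⁻¹ / ((σ : ℂ) - 1)) + (1 / 4 : ℂ) =
      ((σ - 1 : ℝ) : ℂ) * LSeries (fun n => ((vonMangoldt.residueClass (1 : ZMod 8) n : ℝ) : ℂ)) (σ : ℂ) := by
    have h9 : ((σ : ℂ) - 1) ≠ 0 := by
      have := hne
      push_cast at this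
      exact this
    push_cast
    field_simp
    ring
  have h10 : LSeries (fun n => ((vonMangoldt.residueClass (1 : ZMod 8) n : ℝ) : ℂ)) (σ : ℂ) =
      ((∑' n, ‖LSeries.term (fun n => ((vonMangoldt.residueClass (1 : ZMod 8) n : ℝ) : ℂ)) (σ : ℂ) n‖ : ℝ) : ℂ) := by
    rw [LSeries, Complex.ofReal_tsum]
    apply tsum_congr
    intro n
    rcases Nat.eq_zero_or_pos n with h | h
    · subst h; simp
    · rw [LSeries.norm_term_eq, if_neg h.ne', LSeries.term_of_ne_zero h.ne', Complex.ofReal_re,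
        Complex.norm_real, Real.norm_of_nonneg (vonMangoldt.residueClass_nonneg _ n),
        Complex.ofReal_div, Complex.ofReal_cpow (Nat.cast_nonneg n), Complex.ofReal_natCast]
  rw [h8, h10, ← Complex.ofReal_mul, Complex.norm_real, Real.norm_of_nonneg]
  exact mul_nonneg (by linarith) (tsum_nonneg fun n => norm_nonneg _)

/-- summability of `Λ(n)/n` over the non-primes -/
theorem N5_np : Summable fun n : ℕ => (if n.Prime then 0 else vonMangoldt n) / (n : ℝ) := by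
  have h := vonMangoldt.summable_residueClass_non_primes_div (q := 1) (1 : ZMod 1)
  refine h.congr fun n => ?_
  have h1 : vonMangoldt.residueClass (1 : ZMod 1) n = vonMangoldt n :=
    Set.indicator_of_mem (by simp only [Set.mem_ofPred_eq]; exact Subsingleton.elim _ _) _
  rw [h1]

/-- the core of the block: hypotheses are the statements of N2, N3 -/
theorem N5_core (aa_mul : ∀ {m n : ℕ}, m ≠ 0 → n ≠ 0 → aa (m * n) = aa m * aa n)
    (bb_mul : ∀ {m n : ℕ}, m ≠ 0 → n ≠ 0 → bb (m * n) = bb m * bb n)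
    (aa_le : ∀ n : ℕ, ‖aa n‖ ≤ 1) (bb_le : ∀ n : ℕ, ‖bb n‖ ≤ 1)
    (rr_conv : ∀ {n : ℕ}, n ≠ 0 → rr n = ∑ d ∈ n.divisors, aa d * bb (n / d))
    (ab_prime : ∀ {p : ℕ}, p.Prime → aa p + bb p = if p % 8 = 1 then rr p else 0)
    (cm_logderiv : ∀ (a : ℕ → ℂ), a 0 = 0 → a 1 = 1 →
      (∀ m n, m ≠ 0 → n ≠ 0 → a (m * n) = a m * a n) → (∀ n, ‖a n‖ ≤ 1) → ∀ {s : ℂ}, 1 < s.re →
      LSeriesSummable a s ∧ LSeries a s ≠ 0 ∧
      LSeriesSummable (fun n => a n * (vonMangoldt n : ℂ)) s ∧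
      deriv (LSeries a) s = -(LSeries (fun n => a n * (vonMangoldt n : ℂ)) s * LSeries a s))
    (G : ℂ → ℂ) (hG : DifferentiableOn ℂ G {s | 1 / 2 < s.re})
    (hGe : ∀ s, 1 < s.re → LSeries rr s = G s) (t : ℝ) : G (1 + t * Complex.I) ≠ 0 := by
  have ha0 : aa 0 = 0 := by simp [aa]
  have hb0 : bb 0 = 0 := by simp [bb]
  have ha1 : aa 1 = 1 := by simp [aa]
  have hb1 : bb 1 = 1 := by simp [bb]
  have hopen : IsOpen {s : ℂ | 1 < s.re} := isOpen_lt continuous_const Complex.continuous_re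
  have hA := fun {s : ℂ} (hs : 1 < s.re) => cm_logderiv aa ha0 ha1 (fun m n hm hn => aa_mul hm hn) aa_le hs
  have hB := fun {s : ℂ} (hs : 1 < s.re) => cm_logderiv bb hb0 hb1 (fun m n hm hn => bb_mul hm hn) bb_le hs
  -- the product
  have hprod : ∀ s : ℂ, 1 < s.re → G s = LSeries aa s * LSeries bb s := by
    intro s hs
    rw [← hGe s hs, ← LSeries_convolution' (hA hs).1 (hB hs).1]
    apply LSeries_congr
    intro n hn
    rw [rr_conv hn, LSeries.convolution_def]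
    simp only
    rw [Nat.sum_divisorsAntidiagonal (fun x y => aa x * bb y)]
  have habs : ∀ a : ℕ → ℂ, (∀ s : ℂ, 1 < s.re → LSeriesSummable a s) →
      ∀ s : ℂ, 1 < s.re → DifferentiableAt ℂ (LSeries a) s := by
    intro a ha s hs
    have h1 : LSeries.abscissaOfAbsConv a ≤ ((1 : ℝ) : EReal) :=
      LSeries.abscissaOfAbsConv_le_of_forall_lt_LSeriesSummable fun y hy =>
        ha y (by rw [Complex.ofReal_re]; exact hy)
    have h2 : LSeries.abscissaOfAbsConv a < (s.re : EReal) :=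
      lt_of_le_of_lt h1 (by exact_mod_cast hs)
    exact (LSeries_hasDerivAt h2).differentiableAt
  have hGne : ∀ s : ℂ, 1 < s.re → G s ≠ 0 := fun s hs => by
    rw [hprod s hs]; exact mul_ne_zero (hA hs).2.1 (hB hs).2.1
  have hlog : ∀ s : ℂ, 1 < s.re →
      deriv G s / G s = -LSeries (fun n => (aa n + bb n) * (vonMangoldt n : ℂ)) s := by
    intro s hs
    have h1 : G =ᶠ[𝓝 s] fun w => LSeries aa w * LSeries bb w := by
      filter_upwards [hopen.mem_nhds hs] with w hw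
      exact hprod w hw
    have h2 : deriv G s = deriv (LSeries aa) s * LSeries bb s + LSeries aa s * deriv (LSeries bb) s := by
      rw [h1.deriv_eq]
      exact ((habs aa (fun s hs => (hA hs).1) s hs).hasDerivAt.mul
        (habs bb (fun s hs => (hB hs).1) s hs).hasDerivAt).deriv
    have h3 : LSeries (fun n => (aa n + bb n) * (vonMangoldt n : ℂ)) s =
        LSeries (fun n => aa n * (vonMangoldt n : ℂ)) s + LSeries (fun n => bb n * (vonMangoldt n : ℂ)) s := by
      rw [← LSeries_add (hA hs).2.2.1 (hB hs).2.2.1]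
      congr 1
      ext n
      simp only [Pi.add_apply]
      ring
    have h4 := (hA hs).2.1
    have h5 := (hB hs).2.1
    rw [h2, hprod s hs, (hA hs).2.2.2, (hB hs).2.2.2, h3]
    field_simp
    ring
  -- the bound
  set K : ℝ := ∑' n : ℕ, (if n.Prime then 0 else vonMangoldt n) / (n : ℝ) with hK
  set E : ℕ → ℂ := fun n => ((vonMangoldt.residueClass (1 : ZMod 8) n : ℝ) : ℂ) with hE
  have hEs : ∀ σ : ℝ, 1 < σ → Summable fun n => ‖LSeries.term E (σ : ℂ) n‖ := by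
    intro σ hσ
    have h1 : LSeriesSummable E (σ : ℂ) :=
      LSeriesSummable_of_abscissaOfAbsConv_lt_re
        ((vonMangoldt.abscissaOfAbsConv_residueClass_le_one (1 : ZMod 8)).trans_lt
          (by rw [Complex.ofReal_re]; exact_mod_cast hσ))
    exact h1.norm
  have hterm : ∀ (σ : ℝ), 1 < σ → ∀ n : ℕ,
      ‖LSeries.term (fun n => (aa n + bb n) * (vonMangoldt n : ℂ)) (σ + t * Complex.I) n‖ ≤
        2 * ‖LSeries.term E (σ : ℂ) n‖ + 2 * ((if n.Prime then 0 else vonMangoldt n) / (n : ℝ)) := by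
    intro σ hσ n
    rcases Nat.eq_zero_or_pos n with h0 | hpos
    · subst h0; simp
    have hΛ : 0 ≤ vonMangoldt n := vonMangoldt_nonneg
    have hn0 : (0 : ℝ) < n := by exact_mod_cast hpos
    have hpw : (0 : ℝ) < (n : ℝ) ^ σ := Real.rpow_pos_of_pos hn0 _
    have hre : ((σ : ℂ) + t * Complex.I).re = σ := by simp
    have hab : ‖aa n + bb n‖ ≤ 2 := (norm_add_le _ _).trans (by linarith [aa_le n, bb_le n])
    rw [LSeries.norm_term_eq, if_neg hpos.ne', LSeries.norm_term_eq, if_neg hpos.ne', hre, Complex.ofReal_re,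
      _root_.norm_mul, Complex.norm_real, Real.norm_of_nonneg hΛ, hE, Complex.norm_real,
      Real.norm_of_nonneg (vonMangoldt.residueClass_nonneg _ n)]
    have hres : 0 ≤ vonMangoldt.residueClass (1 : ZMod 8) n / (n : ℝ) ^ σ :=
      div_nonneg (vonMangoldt.residueClass_nonneg _ n) hpw.le
    by_cases hp : n.Prime
    · rw [if_pos hp, zero_div, mul_zero, add_zero, ab_prime hp]
      by_cases h8 : n % 8 = 1
      · have h9 : vonMangoldt.residueClass (1 : ZMod 8) n = vonMangoldt n := by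
          apply Set.indicator_of_mem
          simp only [Set.mem_ofPred_eq]
          have : (n : ZMod 8) = ((1 : ℕ) : ZMod 8) := (ZMod.natCast_eq_natCast_iff' n 1 8).mpr (by omega)
          rw [this, Nat.cast_one]
        rw [h9, if_pos h8]
        have h10 : ‖rr n‖ ≤ 2 := by
          have := ab_prime hp
          rw [if_pos h8] at this
          rw [← this]; exact hab
        rw [mul_div_assoc]
        apply mul_le_mul_of_nonneg_right h10
        positivity
      · rw [if_neg h8, _root_.norm_zero, zero_mul, zero_div]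
        linarith
    · rw [if_neg hp]
      have h1 : ‖aa n + bb n‖ * vonMangoldt n / (n : ℝ) ^ σ ≤ 2 * (vonMangoldt n / (n : ℝ)) := by
        rw [mul_div_assoc]
        apply mul_le_mul hab _ (by positivity) (by norm_num)
        apply div_le_div_of_nonneg_left hΛ hn0
        have h2 : (1 : ℝ) ≤ n := by exact_mod_cast hpos
        calc (n : ℝ) = (n : ℝ) ^ (1 : ℝ) := (Real.rpow_one _).symm
          _ ≤ (n : ℝ) ^ σ := Real.rpow_le_rpow_of_exponent_le h2 hσ.le
      linarith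
  have hbound : ∀ σ : ℝ, 1 < σ → ‖deriv G (σ + t * Complex.I) / G (σ + t * Complex.I)‖ ≤
      2 * ∑' n, ‖LSeries.term E (σ : ℂ) n‖ + 2 * K := by
    intro σ hσ
    have hre : (1 : ℝ) < ((σ : ℂ) + t * Complex.I).re := by simp; exact hσ
    rw [hlog _ hre, _root_.norm_neg]
    have hs1 : Summable fun n : ℕ => 2 * ‖LSeries.term E (σ : ℂ) n‖ +
        2 * ((if n.Prime then 0 else vonMangoldt n) / (n : ℝ)) :=
      ((hEs σ hσ).mul_left 2).add (N5_np.mul_left 2)
    have hs2 : Summable fun n =>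
        ‖LSeries.term (fun n => (aa n + bb n) * (vonMangoldt n : ℂ)) (σ + t * Complex.I) n‖ :=
      Summable.of_nonneg_of_le (fun n => norm_nonneg _) (hterm σ hσ) hs1
    calc ‖LSeries (fun n => (aa n + bb n) * (vonMangoldt n : ℂ)) (σ + t * Complex.I)‖
        ≤ ∑' n, ‖LSeries.term (fun n => (aa n + bb n) * (vonMangoldt n : ℂ)) (σ + t * Complex.I) n‖ :=
          norm_tsum_le_tsum_norm hs2
      _ ≤ ∑' n : ℕ, (2 * ‖LSeries.term E (σ : ℂ) n‖ +
          2 * ((if n.Prime then 0 else vonMangoldt n) / (n : ℝ))) := hs2.tsum_le_tsum (hterm σ hσ) hs1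
      _ = 2 * ∑' n, ‖LSeries.term E (σ : ℂ) n‖ + 2 * K := by
          rw [((hEs σ hσ).mul_left 2).tsum_add (N5_np.mul_left 2), tsum_mul_left, tsum_mul_left]
  -- the zero
  intro hzero
  have hU : IsOpen {s : ℂ | 1 / 2 < s.re} := isOpen_lt continuous_const Complex.continuous_re
  have hz0 : (1 + (t : ℂ) * Complex.I) ∈ {s : ℂ | 1 / 2 < s.re} := by
    simp only [Set.mem_ofPred_eq]; simp; norm_num
  have hAn : AnalyticAt ℂ G (1 + (t : ℂ) * Complex.I) := hG.analyticAt (hU.mem_nhds hz0)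
  have hpath : Tendsto (fun σ : ℝ => (σ : ℂ) + t * Complex.I) (𝓝[>] (1 : ℝ))
      (𝓝[≠] (1 + (t : ℂ) * Complex.I)) := by
    apply tendsto_nhdsWithin_iff.mpr
    constructor
    · have h1 : Tendsto (fun σ : ℝ => (σ : ℂ) + t * Complex.I) (𝓝 1)
          (𝓝 (((1 : ℝ) : ℂ) + t * Complex.I)) :=
        (Complex.continuous_ofReal.add continuous_const).tendsto 1
      rw [Complex.ofReal_one] at h1
      exact h1.mono_left nhdsWithin_le_nhds
    · filter_upwards [self_mem_nhdsWithin] with σ hσ h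
      have h1 : (1 : ℝ) < σ := hσ
      have h2 : (σ : ℂ) + t * Complex.I = 1 + t * Complex.I := h
      have h3 := congrArg Complex.re h2
      simp at h3
      linarith
  have hne : ¬ ∀ᶠ z in 𝓝 (1 + (t : ℂ) * Complex.I), G z = 0 := by
    intro h
    have h1 : ∀ᶠ σ : ℝ in 𝓝[>] (1 : ℝ), G ((σ : ℂ) + t * Complex.I) = 0 :=
      hpath.eventually (h.filter_mono nhdsWithin_le_nhds)
    have h3 : ∀ᶠ σ in 𝓝[>] (1 : ℝ), (1 : ℝ) < σ := self_mem_nhdsWithin
    obtain ⟨σ, hσ1, h2⟩ := (h1.and h3).exists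
    exact hGne _ (by simp; exact h2) hσ1
  obtain ⟨m, hm1, hm⟩ := N5_order hAn hzero hne
  have hlim := (hm.comp hpath).norm
  have hlim2 : Tendsto (fun σ : ℝ => 2 * ((σ - 1) * ∑' n, ‖LSeries.term E (σ : ℂ) n‖) + (σ - 1) * (2 * K))
      (𝓝[>] (1 : ℝ)) (𝓝 (2 * (1 / 4) + (1 - 1) * (2 * K))) := by
    refine (N5_res.const_mul 2).add ?_
    refine Tendsto.mul_const _ ?_
    have : Tendsto (fun σ : ℝ => σ - 1) (𝓝 1) (𝓝 (1 - 1)) := (continuous_id.sub continuous_const).tendsto 1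
    exact this.mono_left nhdsWithin_le_nhds
  have hle := le_of_tendsto_of_tendsto hlim hlim2 (by
    filter_upwards [self_mem_nhdsWithin] with σ hσ
    have h1 : (1 : ℝ) < σ := hσ
    have h2 := hbound σ h1
    simp only [Function.comp_apply]
    have h3 : (σ : ℂ) + t * Complex.I - (1 + t * Complex.I) = ((σ - 1 : ℝ) : ℂ) := by push_cast; ring
    rw [h3, _root_.norm_mul, Complex.norm_real, Real.norm_of_nonneg (by linarith)]
    nlinarith)
  rw [Complex.norm_natCast] at hle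
  have : (1 : ℝ) ≤ m := by exact_mod_cast hm1
  linarith

theorem G_ne_zero (G : ℂ → ℂ) (hG : DifferentiableOn ℂ G {s | 1 / 2 < s.re})
    (hGe : ∀ s, 1 < s.re → LSeries rr s = G s) (t : ℝ) : G (1 + t * Complex.I) ≠ 0 :=
  N5_core (fun hm hn => aa_mul hm hn) (fun hm hn => bb_mul hm hn) aa_le bb_le (fun hn => rr_conv hn)
    (fun hp => ab_prime hp) (fun a h0 h1 hm hb _ hs => cm_logderiv a h0 h1 hm hb hs) G hG hGe t


end Pool.Agent.TM32
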