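import Pool.Agent.Lib_helper51.TM32.Defs2

/-!
TM32, block E5 : primes `p = 1 mod 8` are norms from `ℤ[ζ₈]`, in exactly four classes.
-/

set_option autoImplicit false

namespace Pool.Agent.TM32

open Zsqrtd

/-- the automorphism `s ↦ -s`, `ζ ↦ -ζ` -/
def E5_c : Z8 →+* Z8 where
  toFun w := ⟨star w.re, -star w.im⟩
  map_one' := by ext <;> simp [QuadraticAlgebra.re_one, QuadraticAlgebra.im_one]
  map_zero' := by ext <;> simp
  map_add' x y := by ext <;> simp <;> ring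
  map_mul' x y := by ext <;> simp <;> ring

theorem E5_c_apply (w : Z8) : E5_c w = ⟨star w.re, -star w.im⟩ := rfl

/-- the four automorphisms -/
noncomputable def E5_s (i : Fin 4) : Z8 →+* Z8 :=
  match i with
  | 0 => RingHom.id Z8
  | 1 => starRingEnd Z8
  | 2 => E5_c
  | 3 => E5_c.comp (starRingEnd Z8)

theorem E5_N8_star (w : Z8) : N8 (star w) = N8 w := by
  rw [N8_eq, N8_eq]
  unfold gg hh
  simp
  ring

theorem E5_N8_c (w : Z8) : N8 (E5_c w) = N8 w := by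
  rw [N8_eq, N8_eq, E5_c_apply]
  unfold gg hh
  simp
  ring

theorem E5_N8_s (i : Fin 4) (w : Z8) : N8 (E5_s i w) = N8 w := by
  fin_cases i
  · rfl
  · exact E5_N8_star w
  · exact E5_N8_c w
  · exact (E5_N8_c _).trans (E5_N8_star w)

theorem E5_W_star {w : Z8} (h : W w) : W (star w) := by
  obtain ⟨⟨h1, h2⟩, h3⟩ := h
  refine ⟨⟨?_, ?_⟩, ?_⟩
  · simp; omega
  · simp; omega
  · simp; omega

theorem E5_W_c {w : Z8} (h : W w) : W (E5_c w) := by
  obtain ⟨⟨h1, h2⟩, h3⟩ := h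
  rw [E5_c_apply]
  refine ⟨⟨?_, ?_⟩, ?_⟩
  · simp; omega
  · simp; omega
  · simp; omega

theorem E5_W_s (i : Fin 4) {w : Z8} (h : W w) : W (E5_s i w) := by
  fin_cases i
  · exact h
  · exact E5_W_star h
  · exact E5_W_c h
  · exact E5_W_c (E5_W_star h)

theorem E5_prod (w : Z8) :
    ((N8 w : ℤ) : Z8) = E5_s 0 w * E5_s 1 w * (E5_s 2 w * E5_s 3 w) := by
  have h1 : E5_s 0 w * E5_s 1 w = QuadraticAlgebra.C (QuadraticAlgebra.norm w) := by
    rw [QuadraticAlgebra.C_eq_algebraMap, QuadraticAlgebra.algebraMap_norm_eq_mul_star]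
    rfl
  have h2 : E5_s 2 w * E5_s 3 w = E5_c (E5_s 0 w * E5_s 1 w) := by
    rw [map_mul]
    rfl
  have h3 : E5_c (QuadraticAlgebra.C (QuadraticAlgebra.norm w)) =
      QuadraticAlgebra.C (star (QuadraticAlgebra.norm w)) := by
    rw [E5_c_apply]
    ext <;> simp
  rw [h2, h1, h3, ← QuadraticAlgebra.C_mul, ← Zsqrtd.norm_eq_mul_conj,
    QuadraticAlgebra.C_intCast]
  rfl

theorem E5_zeta (i j : Fin 4) (h : i ≠ j) : N8 (E5_s i zet - E5_s j zet) ∣ 16 := by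
  have h0 : E5_s 0 zet = ⟨0, 1⟩ := rfl
  have h1 : E5_s 1 zet = ⟨⟨0, 1⟩, -1⟩ := by
    change star zet = _
    ext <;> simp
  have h2 : E5_s 2 zet = ⟨0, -1⟩ := by
    change E5_c zet = _
    rw [E5_c_apply]
    ext <;> simp
  have h3 : E5_s 3 zet = ⟨⟨0, -1⟩, 1⟩ := by
    change E5_c (star zet) = _
    rw [E5_c_apply]
    ext <;> simp
  fin_cases i <;> fin_cases j <;> first | exact absurd rfl h | skip
  all_goals
    simp only [Fin.zero_eta, Fin.mk_one, Fin.reduceFinMk, h0, h1, h2, h3]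
    rw [N8_eq]
    unfold gg hh
    simp
    try norm_num
    try decide

theorem E5_prime {w : Z8} {p : ℕ} (hp : p.Prime) (h : N8 w = p) : Prime w := by
  refine Irreducible.prime ?_
  refine ⟨?_, ?_⟩
  · rw [isUnit_iff, h]
    have := hp.one_lt
    omega
  · intro a b hab
    rw [isUnit_iff, isUnit_iff]
    have h1 : N8 a * N8 b = p := by rw [← N8_mul, ← hab, h]
    have h2 : (N8 a).natAbs * (N8 b).natAbs = p := by
      rw [← Int.natAbs_mul, h1]
      simp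
    have ha := N8_nonneg a
    have hb := N8_nonneg b
    rcases (Nat.prime_mul_iff.1 (h2 ▸ hp)) with ⟨-, h3⟩ | ⟨-, h3⟩
    · right; omega
    · left; omega

/-- a root of `x ^ 4 + 1` mod `p` -/
theorem E5_root {p : ℕ} (hp : p.Prime) (h8 : p % 8 = 1) : ∃ n : ℤ, (p : ℤ) ∣ n ^ 4 + 1 := by
  have := Fact.mk hp
  obtain ⟨g, hg⟩ := IsCyclic.exists_generator (α := (ZMod p)ˣ)
  have ho : orderOf g = p - 1 := by
    rw [orderOf_eq_card_of_forall_mem_zpowers hg, Nat.card_eq_fintype_card, ZMod.card_units]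
  have hp1 : 1 < p := hp.one_lt
  obtain ⟨k, hk⟩ : ∃ k, p - 1 = 8 * k := ⟨(p - 1) / 8, by omega⟩
  have hk0 : 0 < k := by omega
  set r := g ^ k with hr
  have h1 : (r ^ 4) ^ 2 = 1 := by
    rw [hr, ← pow_mul, ← pow_mul, show k * (4 * 2) = 8 * k by ring, ← hk, ← ho,
      pow_orderOf_eq_one]
  have h2 : r ^ 4 ≠ 1 := by
    intro h3
    rw [hr, ← pow_mul] at h3
    have h4 := orderOf_dvd_of_pow_eq_one h3
    rw [ho, hk] at h4
    have := Nat.le_of_dvd (by omega) h4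
    omega
  have h3 : ((r : ZMod p)) ^ 4 = -1 := by
    have h4 : ((r : ZMod p) ^ 4) ^ 2 = 1 := by
      have := congrArg (fun u : (ZMod p)ˣ => (u : ZMod p)) h1
      simpa using this
    rcases sq_eq_one_iff.1 h4 with h5 | h5
    · exfalso
      apply h2
      ext
      simpa using h5
    · exact h5
  refine ⟨((r : ZMod p)).val, ?_⟩
  rw [← ZMod.intCast_zmod_eq_zero_iff_dvd]
  push_cast
  rw [ZMod.natCast_zmod_val, h3]
  ring


theorem E5_root2 {p : ℕ} (hp : p.Prime) (h8 : p % 8 = 1) :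
    ∃ n : ℤ, (p : ℤ) ∣ n ^ 4 + 1 ∧ ¬ ((p : ℤ) ^ 2 ∣ n ^ 4 + 1) := by
  obtain ⟨n, hn⟩ := E5_root hp h8
  by_cases h : (p : ℤ) ^ 2 ∣ n ^ 4 + 1
  · refine ⟨n + p, ?_, ?_⟩
    · have : (n + p) ^ 4 + 1 = (n ^ 4 + 1) + p * (4 * n ^ 3 + 6 * n ^ 2 * p + 4 * n * p ^ 2 + p ^ 3) := by
        ring
      rw [this]
      exact dvd_add hn (dvd_mul_right _ _)
    · intro h2
      have h3 : (p : ℤ) ^ 2 ∣ p * (4 * n ^ 3) := by
        have : (p : ℤ) * (4 * n ^ 3) = ((n + p) ^ 4 + 1) - (n ^ 4 + 1) -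
          p ^ 2 * (6 * n ^ 2 + 4 * n * p + p ^ 2) := by ring
        rw [this]
        exact dvd_sub (dvd_sub h2 h) (dvd_mul_right _ _)
      have hp0 : (p : ℤ) ≠ 0 := by exact_mod_cast hp.ne_zero
      have h4 : (p : ℤ) ∣ 4 * n ^ 3 := by
        rw [pow_two] at h3
        exact (mul_dvd_mul_iff_left hp0).1 h3
      have hpi : Prime (p : ℤ) := Nat.prime_iff_prime_int.1 hp
      rcases hpi.dvd_mul.1 h4 with h5 | h5
      · have h6 : (p : ℤ) ≤ 4 := Int.le_of_dvd (by norm_num) h5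
        have := hp.two_le
        have h7 : p ≤ 4 := by exact_mod_cast h6
        interval_cases p <;> omega
      · have h6 : (p : ℤ) ∣ n := hpi.dvd_of_dvd_pow h5
        have h7 : (p : ℤ) ∣ 1 := by
          have h8 : (p : ℤ) ∣ n ^ 4 := dvd_pow h6 (by norm_num)
          exact (dvd_add_right h8).1 hn
        exact hpi.not_isUnit (isUnit_of_dvd_one h7)
  · exact ⟨n, hn, h⟩

theorem E5_N8_sub (n : ℤ) : N8 (zet - (n : Z8)) = n ^ 4 + 1 := by
  rw [N8_eq]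
  unfold gg hh
  simp
  ring

theorem exists_norm {p : ℕ} (hp : p.Prime) (h8 : p % 8 = 1) : ∃ w : Z8, N8 w = p := by
  obtain ⟨n, hn, hn2⟩ := E5_root2 hp h8
  have hpi : Prime (p : ℤ) := Nat.prime_iff_prime_int.1 hp
  set d : Z8 := EuclideanDomain.gcd (((p : ℤ) : Z8)) (zet - (n : Z8)) with hd
  have hd1 : N8 d ∣ (p : ℤ) ^ 4 := by
    rw [← N8_intCast]
    exact N8_dvd (EuclideanDomain.gcd_dvd_left _ _)
  have hd2 : N8 d ∣ n ^ 4 + 1 := by
    rw [← E5_N8_sub]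
    exact N8_dvd (EuclideanDomain.gcd_dvd_right _ _)
  have hd3 : N8 d ≠ 1 := by
    intro h1
    have h2 := EuclideanDomain.gcd_eq_gcd_ab (((p : ℤ) : Z8)) (zet - (n : Z8))
    rw [← hd] at h2
    obtain ⟨u, hu⟩ := isUnit_iff.2 h1
    set a := EuclideanDomain.gcdA (((p : ℤ) : Z8)) (zet - (n : Z8))
    set b := EuclideanDomain.gcdB (((p : ℤ) : Z8)) (zet - (n : Z8))
    have h3 : (zet - (n : Z8)) * (b * ((u⁻¹ : Z8ˣ) : Z8)) = 1 - ((p : ℤ) : Z8) * (a * ((u⁻¹ : Z8ˣ) : Z8)) := by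
      have h4 : (u : Z8) * ((u⁻¹ : Z8ˣ) : Z8) = 1 := u.mul_inv
      rw [hu, h2] at h4
      linear_combination h4
    set c := a * ((u⁻¹ : Z8ˣ) : Z8)
    have h4 := congrArg N8 h3
    rw [N8_mul, E5_N8_sub] at h4
    have h5 : (p : ℤ) ∣ N8 (1 - ((p : ℤ) : Z8) * c) := by
      rw [← h4]
      exact dvd_mul_of_dvd_left hn _
    have h6 : (p : ℤ) ∣ N8 (1 - ((p : ℤ) : Z8) * c) - 1 := by
      rw [N8_eq]
      have hg : gg (1 - ((p : ℤ) : Z8) * c) = 1 + p * (p * gg c - 2 * (c.re.re - c.im.im)) := by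
        unfold gg
        simp [QuadraticAlgebra.re_one, QuadraticAlgebra.im_one]
        ring
      have hh' : hh (1 - ((p : ℤ) : Z8) * c) = p * (p * hh c - c.im.re) := by
        unfold hh
        simp [QuadraticAlgebra.re_one, QuadraticAlgebra.im_one]
        ring
      rw [hg, hh']
      refine ⟨(p * gg c - 2 * (c.re.re - c.im.im)) * (2 + p * (p * gg c - 2 * (c.re.re - c.im.im)))
        - 2 * (p * (p * hh c - c.im.re) ^ 2), ?_⟩
      ring
    have h7 : (p : ℤ) ∣ 1 := by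
      have := dvd_sub h5 h6
      simpa using this
    exact hpi.not_isUnit (isUnit_of_dvd_one h7)
  refine ⟨d, ?_⟩
  have h9 := N8_nonneg d
  obtain ⟨k, hk, hk2⟩ := (Nat.dvd_prime_pow hp).1 (show (N8 d).natAbs ∣ p ^ 4 by
    have := Int.natAbs_dvd_natAbs.2 hd1
    rwa [Int.natAbs_pow, Int.natAbs_natCast] at this)
  have hk3 : N8 d = (p : ℤ) ^ k := by
    have : ((N8 d).natAbs : ℤ) = N8 d := Int.natAbs_of_nonneg h9
    rw [← this, hk2]
    push_cast
    rfl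
  rcases Nat.lt_or_ge k 2 with h10 | h10
  · interval_cases k
    · exact absurd (by simpa using hk3) hd3
    · simpa using hk3
  · exfalso
    apply hn2
    refine dvd_trans ?_ hd2
    rw [hk3]
    exact pow_dvd_pow _ h10

theorem E5_W_norm {w : Z8} (hw : W w) : N8 w % 8 = 1 := by
  obtain ⟨⟨h1, h2⟩, h3⟩ := hw
  obtain ⟨k, hk⟩ : ∃ k, w.re.re = 2 * k + 1 := ⟨w.re.re / 2, by omega⟩
  obtain ⟨l, hl⟩ : ∃ l, w.re.im = 2 * l := ⟨w.re.im / 2, by omega⟩
  obtain ⟨m, hm⟩ : ∃ m, w.im.re = 4 * m := ⟨w.im.re / 4, by omega⟩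
  have hg : ∃ t, gg w = 2 * t + 1 := by
    unfold gg
    rw [hk, hl, hm]
    refine ⟨2 * k ^ 2 + 2 * k - (2 * k + 1) * w.im.im + w.im.im ^ 2 + 8 * m ^ 2 + 8 * m * l +
      4 * l ^ 2, ?_⟩
    ring
  have hh' : ∃ u, hh w = 4 * u := by
    unfold hh
    rw [hk, hl, hm]
    exact ⟨(2 * k + 1) * m + l * w.im.im, by ring⟩
  obtain ⟨t, ht⟩ := hg
  obtain ⟨u, hu⟩ := hh'
  rw [N8_eq, ht, hu]
  obtain ⟨v, hv⟩ : ∃ v, t * (t + 1) = 2 * v := (Int.even_mul_succ_self t).two_dvd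
  have : (2 * t + 1) ^ 2 - 2 * (4 * u) ^ 2 = 8 * (v - 4 * u ^ 2) + 1 := by
    linear_combination 4 * hv
  rw [this]
  omega

/-- `ζ` is congruent to an integer modulo an element of prime norm -/
theorem E5_int {w : Z8} {p : ℕ} (hp : p.Prime) (h8 : p % 8 = 1) (h : N8 w = p) :
    ∃ m : ℤ, w ∣ zet - (m : Z8) := by
  obtain ⟨n, hn⟩ := E5_root hp h8
  have hw := E5_prime hp h
  have h1 : w ∣ (((p : ℤ)) : Z8) := by
    rw [← h]
    exact dvd_N8 w
  have hz : (zet : Z8) ^ 4 = -1 := by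
    rw [show (zet : Z8) ^ 4 = zet * zet * (zet * zet) by ring]
    ext <;> simp [QuadraticAlgebra.re_one, QuadraticAlgebra.im_one]
  obtain ⟨c, hc⟩ := hn
  have hcz : ((n : Z8)) ^ 4 + 1 = ((p : ℤ) : Z8) * (c : Z8) := by
    have := congrArg (fun x : ℤ => (x : Z8)) hc
    push_cast at this
    push_cast
    exact this
  have h2 : w ∣ (zet - ((n : ℤ) : Z8)) * (zet - ((-n : ℤ) : Z8)) *
      ((zet - ((n ^ 3 : ℤ) : Z8)) * (zet - ((-n ^ 3 : ℤ) : Z8))) := by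
    refine dvd_trans h1 ⟨(c : Z8) * (n : Z8) ^ 2 * (- zet ^ 2) + (c : Z8) * ((n : Z8) ^ 4 - 1), ?_⟩
    push_cast
    linear_combination (1 : Z8) * hz + ((n : Z8) ^ 4 - 1 - (n : Z8) ^ 2 * zet ^ 2) * hcz
  rcases hw.dvd_or_dvd h2 with h3 | h3
  · rcases hw.dvd_or_dvd h3 with h4 | h4
    · exact ⟨_, h4⟩
    · exact ⟨_, h4⟩
  · rcases hw.dvd_or_dvd h3 with h4 | h4
    · exact ⟨_, h4⟩
    · exact ⟨_, h4⟩

theorem E5_not_assoc {w : Z8} {p : ℕ} (hp : p.Prime) (h8 : p % 8 = 1) (h : N8 w = p)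
    (i j : Fin 4) (hij : i ≠ j) : ¬ Associated (E5_s i w) (E5_s j w) := by
  intro ha
  obtain ⟨m, hm⟩ := E5_int hp h8 h
  have h1 : E5_s i w ∣ E5_s i zet - (m : Z8) := by
    have := map_dvd (E5_s i) hm
    rwa [map_sub, map_intCast] at this
  have h2 : E5_s i w ∣ E5_s j zet - (m : Z8) := by
    refine ha.dvd.trans ?_
    have := map_dvd (E5_s j) hm
    rwa [map_sub, map_intCast] at this
  have h3 : E5_s i w ∣ E5_s i zet - E5_s j zet := by
    have := dvd_sub h1 h2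
    have e : E5_s i zet - (m : Z8) - (E5_s j zet - (m : Z8)) = E5_s i zet - E5_s j zet := by ring
    rwa [e] at this
  have h4 : (p : ℤ) ∣ 16 := by
    have h5 := N8_dvd h3
    rw [E5_N8_s, h] at h5
    exact h5.trans (E5_zeta i j hij)
  have h5 : p ∣ 2 ^ 4 := by exact_mod_cast h4
  have h6 := (Nat.prime_dvd_prime_iff_eq hp Nat.prime_two).1 (hp.dvd_of_dvd_pow h5)
  omega

/-- exactly four classes, all in `𝒲` if one is -/
theorem four_classes {p : ℕ} (hp : p.Prime) {w : Z8} (hw : W w) (hN : N8 w = p) :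
    ∃ S : Finset Z8, S.card = 4 ∧ (∀ x ∈ S, W x ∧ N8 x = p) ∧
      (∀ x ∈ S, ∀ y ∈ S, Associated x y → x = y) ∧
      ∀ x, N8 x = p → ∃ y ∈ S, Associated x y := by
  classical
  have h8 : p % 8 = 1 := by
    have := E5_W_norm hw
    rw [hN] at this
    omega
  have hinj : Function.Injective (fun i : Fin 4 => E5_s i w) := by
    intro i j hij
    by_contra hne
    exact E5_not_assoc hp h8 hN i j hne (by
      have : E5_s i w = E5_s j w := hij
      rw [this])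
  refine ⟨Finset.univ.map ⟨_, hinj⟩, by simp, ?_, ?_, ?_⟩
  · intro x hx
    obtain ⟨i, -, rfl⟩ := Finset.mem_map.1 hx
    exact ⟨E5_W_s i hw, (E5_N8_s i w).trans hN⟩
  · intro x hx y hy hxy
    obtain ⟨i, -, rfl⟩ := Finset.mem_map.1 hx
    obtain ⟨j, -, rfl⟩ := Finset.mem_map.1 hy
    by_cases hij : i = j
    · rw [hij]
    · exact absurd hxy (E5_not_assoc hp h8 hN i j hij)
  · intro x hx
    have hxp := E5_prime hp hx
    have h1 : x ∣ E5_s 0 w * E5_s 1 w * (E5_s 2 w * E5_s 3 w) := by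
      rw [← E5_prod, hN, ← hx]
      exact dvd_N8 x
    have h2 : ∃ i : Fin 4, x ∣ E5_s i w := by
      rcases hxp.dvd_or_dvd h1 with h3 | h3
      · rcases hxp.dvd_or_dvd h3 with h4 | h4
        · exact ⟨0, h4⟩
        · exact ⟨1, h4⟩
      · rcases hxp.dvd_or_dvd h3 with h4 | h4
        · exact ⟨2, h4⟩
        · exact ⟨3, h4⟩
    obtain ⟨i, t, ht⟩ := h2
    refine ⟨E5_s i w, Finset.mem_map.2 ⟨i, Finset.mem_univ _, rfl⟩, ?_⟩
    have h5 : N8 t = 1 := by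
      have h6 := congrArg N8 ht
      rw [E5_N8_s, N8_mul, hN, hx] at h6
      have hp0 : (p : ℤ) ≠ 0 := by exact_mod_cast hp.ne_zero
      have h7 : (p : ℤ) * N8 t = p * 1 := by rw [mul_one]; exact h6.symm
      exact mul_left_cancel₀ hp0 h7
    obtain ⟨u, hu⟩ := isUnit_iff.2 h5
    exact ⟨u, by rw [hu, ht]⟩

end Pool.Agent.TM32
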